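import Mathlib
import Pool.Agent.R524.UK.Lower

/-!
# The upper k-domination number is not monotone in k
-/

set_option autoImplicit false

namespace Pool.Agent.Results.MP_92077f_co.UpperKNotMonotone

open Classical in
/-- `g(N[v])`: the weight of `g` on the closed neighbourhood of `v` -/
noncomputable def closedWeight {V : Type} [Fintype V] (G : SimpleGraph V) (g : V → ℕ) (v : V) : ℕ :=
  ∑ w ∈ Finset.univ.filter (fun w => w = v ∨ G.Adj v w), g w

/-- `g : V → {0, …, k}` is a minimal `k`-dominating function -/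
def IsMinimalKDominating {V : Type} [Fintype V] (G : SimpleGraph V) (k : ℕ) (g : V → ℕ) : Prop :=
  (∀ v, g v ≤ k) ∧ (∀ v, k ≤ closedWeight G g v) ∧
    ∀ v, 0 < g v → ∃ u, (u = v ∨ G.Adj v u) ∧ closedWeight G g u = k

/-- the upper `k`-domination number `Γ_k(G)` -/
noncomputable def upperK {V : Type} [Fintype V] (G : SimpleGraph V) (k : ℕ) : ℕ :=
  sSup {w : ℕ | ∃ g : V → ℕ, IsMinimalKDominating G k g ∧ w = ∑ v, g v}

theorem bdd {V : Type} [Fintype V] (G : SimpleGraph V) (k : ℕ) :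
    BddAbove {w : ℕ | ∃ g : V → ℕ, IsMinimalKDominating G k g ∧ w = ∑ v, g v} := by
  refine ⟨∑ _v : V, k, ?_⟩
  rintro w ⟨g, hg, rfl⟩
  exact Finset.sum_le_sum fun v _ => hg.1 v

theorem exists_minimal {V : Type} [Fintype V] (G : SimpleGraph V) (k : ℕ) :
    ∃ g : V → ℕ, IsMinimalKDominating G k g := by
  classical
  have hex : ∃ w : ℕ, ∃ g : V → ℕ, (∀ v, g v ≤ k) ∧ (∀ v, k ≤ closedWeight G g v) ∧ w = ∑ v, g v := by
    refine ⟨_, fun _ => k, fun _ => le_rfl, fun v => ?_, rfl⟩
    exact Finset.single_le_sum (f := fun _ : V => k) (fun _ _ => Nat.zero_le _)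
      (Finset.mem_filter.2 ⟨Finset.mem_univ v, Or.inl rfl⟩)
  obtain ⟨g, h1, h2, h3⟩ := Nat.find_spec hex
  refine ⟨g, h1, h2, fun v hv => ?_⟩
  by_contra hcon
  push Not at hcon
  let g' : V → ℕ := fun w => if w = v then g w - 1 else g w
  have hg' : ∀ w, g w = g' w + (if w = v then 1 else 0) := by
    intro w
    by_cases hw : w = v
    · simp only [g', hw, if_true]; omega
    · simp [g', hw]
  have hsum : ∑ w, g w = ∑ w, g' w + 1 := by
    simp only [hg']
    rw [Finset.sum_add_distrib]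
    simp
  have hcw : ∀ u, closedWeight G g u = closedWeight G g' u + (if (v = u ∨ G.Adj u v) then 1 else 0) := by
    intro u
    unfold closedWeight
    simp only [hg']
    rw [Finset.sum_add_distrib, Finset.sum_ite_eq']
    simp
  refine Nat.find_min hex (m := ∑ w, g' w) ?_ ⟨g', fun w => ?_, fun u => ?_, rfl⟩
  · rw [h3, hsum]; exact Nat.lt_succ_self _
  · have := hg' w
    have := h1 w
    omega
  · have h4 := hcw u
    have h5 := h2 u
    by_cases hu : v = u ∨ G.Adj u v
    · have h6 : closedWeight G g u ≠ k := hcon u (by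
        rcases hu with hu | hu
        · exact Or.inl hu.symm
        · exact Or.inr hu.symm)
      rw [if_pos hu] at h4
      omega
    · rw [if_neg hu] at h4
      omega

/-- the upper `k`-domination number is a maximum -/
theorem upperK_spec {V : Type} [Fintype V] (G : SimpleGraph V) (k : ℕ) :
    (∃ g : V → ℕ, IsMinimalKDominating G k g ∧ upperK G k = ∑ v, g v) ∧
      ∀ g : V → ℕ, IsMinimalKDominating G k g → ∑ v, g v ≤ upperK G k := by
  constructor
  · obtain ⟨g, hg⟩ := exists_minimal G k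
    have h : sSup {w : ℕ | ∃ g : V → ℕ, IsMinimalKDominating G k g ∧ w = ∑ v, g v} ∈
        {w : ℕ | ∃ g : V → ℕ, IsMinimalKDominating G k g ∧ w = ∑ v, g v} :=
      Nat.sSup_mem ⟨_, ⟨g, hg, rfl⟩⟩ (bdd G k)
    exact h
  · intro g hg
    exact le_csSup (bdd G k) ⟨g, hg, rfl⟩

/-- For every `C` there is a graph with `C * Γ_4(G) < Γ_3(G)`; in particular it is false that
`Γ_k(G) < Γ_{k+1}(G)` for all graphs `G` and all positive integers `k`. -/
theorem result :
    (∀ C : ℕ, ∃ (V : Type) (_ : Fintype V) (_ : Nonempty V) (G : SimpleGraph V),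
      C * upperK G 4 < upperK G 3) ∧
    ¬ (∀ (V : Type) [Fintype V] [Nonempty V] (G : SimpleGraph V) (k : ℕ), 1 ≤ k →
      upperK G k < upperK G (k + 1)) := by
  have h1 : ∀ C : ℕ, 1 ≤ C → ∃ (V : Type) (_ : Fintype V) (_ : Nonempty V) (G : SimpleGraph V),
      C * upperK G 4 < upperK G 3 := by
    intro C hC
    obtain ⟨n, L, M, g, hg, h⟩ := Pool.Agent.R524.UK.exists_graph C hC
    refine ⟨_, inferInstance, ⟨Pool.Agent.R524.UK.vx⟩, Pool.Agent.R524.UK.gr n L M, ?_⟩
    obtain ⟨f, hf, hfe⟩ := (upperK_spec (Pool.Agent.R524.UK.gr n L M) 4).1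
    rw [hfe]
    exact lt_of_lt_of_le (h f hf) ((upperK_spec (Pool.Agent.R524.UK.gr n L M) 3).2 g hg)
  refine ⟨fun C => ?_, fun hall => ?_⟩
  · rcases Nat.eq_zero_or_pos C with rfl | hC
    · obtain ⟨V, i1, i2, G, hG⟩ := h1 1 le_rfl
      exact ⟨V, i1, i2, G, by omega⟩
    · exact h1 C hC
  · obtain ⟨V, i1, i2, G, hG⟩ := h1 1 le_rfl
    have := hall V G 3 (by norm_num)
    simp only [Nat.reduceAdd] at this
    omega

end Pool.Agent.Results.MP_92077f_co.UpperKNotMonotone
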